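import Pool.Agent.MP_3779a0.Final

open MeasureTheory Filter Topology

namespace Pool.Agent.Results.MP_3779a0_an.HenonLDPFails

open Pool.Agent.MP_3779a0

/-- There are a complex Henon map `f`, a Lipschitz weight `φ` with a unique equilibrium
state `μ`, and a Hoelder continuous observable `g` of zero mean, not an `L²(μ)` coboundary,
such that `μ {S_n g / n > ε} = 0` for all large `n`, for every `ε > 0`; in particular no
function `c` as in the large deviation statement exists. -/
theorem result :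
    ∃ (f : ℂ × ℂ → ℂ × ℂ) (φ : ℂ × ℂ → ℝ) (μ : Measure (ℂ × ℂ)) (g : ℂ × ℂ → ℝ),
      IsHenon f ∧ (∃ L, LipschitzWith L φ) ∧
      IsEquilibrium f φ μ ∧ (∀ ν, IsEquilibrium f φ ν → ν = μ) ∧
      IsHoelder g ∧ ∫ x, g x ∂μ = 0 ∧ ¬ IsCoboundary f μ g ∧
      (∀ ε : ℝ, 0 < ε → ∀ᶠ n : ℕ in atTop, μ (devSet f g ε n) = 0) ∧
      ¬ HasRateFunction f μ g := by
  obtain ⟨A, _, heq, huniq⟩ := equilibrium
  obtain ⟨g, hg, hmean, hcob, hdev⟩ := observable
  exact ⟨fmap, weight A, muT, g, fmap_isHenon, weight_lip A, heq, huniq, hg, hmean, hcob, hdev,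
    no_rate fmap muT g hdev⟩

end Pool.Agent.Results.MP_3779a0_an.HenonLDPFails
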